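import Mathlib
import Pool.Agent.H964.DP.Stm

/-! Project DP (MP_b30792_pr), leaf COARSE: fractional moment with change of measure. -/

set_option autoImplicit false
set_option linter.unusedSectionVars false
set_option linter.unusedVariables false

open MeasureTheory ProbabilityTheory Filter Finset
open scoped ENNReal

namespace Pool.Agent.H196.DP

open Pool.Agent.H964.DP

/-! ### the weighted walk -/

theorem K_zero (v : ℕ → V → ℝ) (f : V → ℝ) (x : V) : K 0 v f x = f x := rfl

theorem K_succ (n : ℕ) (v : ℕ → V → ℝ) (f : V → ℝ) (x : V) :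
    K (n + 1) v f x = (∑ e : Fin 4, v 0 (x + stp e) * K n (fun k => v (k + 1)) f (x + stp e)) / 4 :=
  rfl

theorem K_add (n m : ℕ) : ∀ (v : ℕ → V → ℝ) (f : V → ℝ) (x : V),
    K (n + m) v f x = K n v (fun y => K m (fun k => v (k + n)) f y) x := by
  induction n with
  | zero =>
    intro v f x
    rw [Nat.zero_add]
    rfl
  | succ n ih =>
    intro v f x
    rw [Nat.add_right_comm, K_succ, K_succ]
    congr 1
    refine Finset.sum_congr rfl fun e _ => ?_
    rw [ih]
    rfl

theorem K_nonneg (n : ℕ) : ∀ (v : ℕ → V → ℝ) (f : V → ℝ) (x : V), (∀ k y, 0 ≤ v k y) →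
    (∀ y, 0 ≤ f y) → 0 ≤ K n v f x := by
  induction n with
  | zero => exact fun v f x hv hf => hf x
  | succ n ih =>
    intro v f x hv hf
    rw [K_succ]
    exact div_nonneg (Finset.sum_nonneg fun e _ => mul_nonneg (hv _ _)
      (ih _ _ _ (fun k y => hv _ _) hf)) (by norm_num)

theorem K_congr (n : ℕ) : ∀ (v v' : ℕ → V → ℝ) (f : V → ℝ) (x : V), (∀ k < n, v k = v' k) →
    K n v f x = K n v' f x := by
  induction n with
  | zero => exact fun v v' f x h => rfl
  | succ n ih =>
    intro v v' f x h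
    rw [K_succ, K_succ, h 0 (by omega)]
    congr 1
    refine Finset.sum_congr rfl fun e _ => ?_
    rw [ih (fun k => v (k + 1)) (fun k => v' (k + 1)) f _ (fun k hk => h (k + 1) (by omega))]

theorem K_trans (n : ℕ) (a : V) : ∀ (v : ℕ → V → ℝ) (f : V → ℝ) (x : V),
    K n v f (x + a) = K n (fun i y => v i (y + a)) (fun y => f (y + a)) x := by
  induction n with
  | zero => exact fun v f x => rfl
  | succ n ih =>
    intro v f x
    rw [K_succ, K_succ]
    congr 1
    refine Finset.sum_congr rfl fun e _ => ?_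
    have h : x + a + stp e = x + stp e + a := by abel
    rw [h, ih]

theorem K_sum {ι : Type} (F : Finset ι) (n : ℕ) : ∀ (v : ℕ → V → ℝ) (f : ι → V → ℝ) (x : V),
    K n v (fun y => ∑ c ∈ F, f c y) x = ∑ c ∈ F, K n v (f c) x := by
  induction n with
  | zero => exact fun v f x => rfl
  | succ n ih =>
    intro v f x
    rw [K_succ]
    simp_rw [K_succ]
    rw [← Finset.sum_div, Finset.sum_comm]
    congr 1
    refine Finset.sum_congr rfl fun e _ => ?_
    rw [ih, Finset.mul_sum]

/-- the walk makes nearest neighbour steps -/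
theorem stp_le (e : Fin 4) : |(stp e).1| ≤ 1 ∧ |(stp e).2| ≤ 1 := by
  fin_cases e <;> simp [stp]

theorem K_loc (n : ℕ) : ∀ (v : ℕ → V → ℝ) (f f' : V → ℝ) (x : V),
    (∀ y, |y.1 - x.1| ≤ n → |y.2 - x.2| ≤ n → f y = f' y) → K n v f x = K n v f' x := by
  induction n with
  | zero =>
    intro v f f' x h
    exact h x (by simp) (by simp)
  | succ n ih =>
    intro v f f' x h
    rw [K_succ, K_succ]
    congr 1
    refine Finset.sum_congr rfl fun e _ => ?_
    rw [ih (fun k => v (k + 1)) f f' (x + stp e)]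
    intro y h1 h2
    have h3 := stp_le e
    refine h y ?_ ?_
    · have : y.1 - x.1 = (y.1 - (x + stp e).1) + (stp e).1 := by
        rw [Prod.fst_add]; ring
      rw [this]
      refine (abs_add_le _ _).trans ?_
      push_cast
      linarith [h3.1]
    · have : y.2 - x.2 = (y.2 - (x + stp e).2) + (stp e).2 := by
        rw [Prod.snd_add]; ring
      rw [this]
      refine (abs_add_le _ _).trans ?_
      push_cast
      linarith [h3.2]

theorem pos_zero {N : ℕ} (σ : Fin N → Fin 4) : pos σ 0 = 0 := by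
  unfold pos
  apply Finset.sum_eq_zero
  intro k hk
  rw [Finset.mem_filter] at hk
  omega

theorem pos_cons {N : ℕ} (e : Fin 4) (σ : Fin N → Fin 4) (n : ℕ) :
    pos (Fin.cons e σ : Fin (N + 1) → Fin 4) (n + 1) = stp e + pos σ n := by
  unfold pos
  rw [Finset.sum_filter, Finset.sum_filter, Fin.sum_univ_succ]
  simp

/-- path expansion -/
theorem K_path (n : ℕ) : ∀ (v : ℕ → V → ℝ) (f : V → ℝ) (x : V),
    K n v f x = ∑ τ : Fin n → Fin 4, (∏ i : Fin n, v i (x + pos τ (i + 1))) / 4 ^ n *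
      f (x + pos τ n) := by
  induction n with
  | zero =>
    intro v f x
    rw [Fintype.sum_unique, pos_zero, add_zero]
    simp [K_zero]
  | succ n ih =>
    intro v f x
    rw [K_succ, ← (Fin.consEquiv (fun _ : Fin (n + 1) => Fin 4)).sum_comp, Fintype.sum_prod_type,
      Finset.sum_div]
    refine Finset.sum_congr rfl fun e _ => ?_
    rw [ih, Finset.mul_sum, Finset.sum_div]
    refine Finset.sum_congr rfl fun τ _ => ?_
    change _ = (∏ i : Fin (n + 1), v i (x + pos (Fin.cons e τ : Fin (n + 1) → Fin 4) (i + 1))) /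
      4 ^ (n + 1) * f (x + pos (Fin.cons e τ : Fin (n + 1) → Fin 4) (n + 1))
    rw [pos_cons, Fin.prod_univ_succ]
    have h1 : pos (Fin.cons e τ : Fin (n + 1) → Fin 4) ((0 : Fin (n + 1)) + 1 : ℕ) = stp e := by
      have := pos_cons e τ 0
      rw [pos_zero, add_zero] at this
      exact this
    have h2 : ∀ i : Fin n, pos (Fin.cons e τ : Fin (n + 1) → Fin 4) ((i.succ : Fin (n + 1)) + 1 : ℕ) =
        stp e + pos τ (i + 1) := fun i => pos_cons e τ (i + 1)
    simp only [h2]
    rw [h1, pow_succ, add_assoc]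
    have h3 : ∀ i : Fin n, x + stp e + pos τ (i + 1) = x + (stp e + pos τ (i + 1)) :=
      fun i => add_assoc _ _ _
    simp only [h3]
    have h4 : ((0 : Fin (n + 1)) : ℕ) = 0 := rfl
    have h5 : ∀ i : Fin n, ((i.succ : Fin (n + 1)) : ℕ) = (i : ℕ) + 1 := fun i => Fin.val_succ i
    simp only [h4, h5]
    field_simp

/-! ### the first slices and the rest -/

section glue

variable {S : Type} [MeasurableSpace S]

/-- the first `l` slices of the first environment, followed by the second environment -/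
def glue (l : ℕ) (p : (ℕ → S) × (ℕ → S)) : ℕ → S := fun k => if k < l then p.1 k else p.2 (k - l)

theorem glue_meas (l : ℕ) : Measurable (glue (S := S) l) := by
  refine measurable_pi_lambda _ fun k => ?_
  unfold glue
  by_cases h : k < l
  · simp only [h, if_true]
    exact (measurable_pi_apply k).comp measurable_fst
  · simp only [h, if_false]
    exact (measurable_pi_apply (k - l)).comp measurable_snd

theorem glue_map (μ : Measure S) [IsProbabilityMeasure μ] (l : ℕ) :
    ((Measure.infinitePi (fun _ : ℕ => μ)).prod (Measure.infinitePi (fun _ : ℕ => μ))).map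
      (glue l) = Measure.infinitePi (fun _ : ℕ => μ) := by
  classical
  apply Measure.eq_infinitePi
  intro s t ht
  have hms : MeasurableSet (Set.pi (s : Set ℕ) t) :=
    MeasurableSet.pi s.countable_toSet (fun i _ => ht i)
  rw [Measure.map_apply (glue_meas l) hms]
  have hpre : glue l ⁻¹' (Set.pi (s : Set ℕ) t) =
      (Set.pi ((s.filter fun k => k < l : Finset ℕ) : Set ℕ) t) ×ˢ
      (Set.pi (((s.filter fun k => ¬ k < l).image fun k => k - l : Finset ℕ) : Set ℕ)
        (fun j => t (j + l))) := by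
    ext p
    simp only [Set.mem_preimage, Set.mem_pi, Set.mem_prod, Finset.mem_coe, Finset.mem_filter,
      Finset.mem_image]
    constructor
    · intro h
      refine ⟨fun k hk => ?_, ?_⟩
      · have := h k hk.1
        unfold glue at this
        rwa [if_pos hk.2] at this
      · rintro j ⟨k, ⟨hk, hkl⟩, rfl⟩
        have := h k hk
        unfold glue at this
        rw [if_neg hkl] at this
        rwa [Nat.sub_add_cancel (not_lt.1 hkl)]
    · rintro ⟨h1, h2⟩ k hk
      unfold glue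
      by_cases h : k < l
      · rw [if_pos h]
        exact h1 k ⟨hk, h⟩
      · rw [if_neg h]
        have := h2 (k - l) ⟨k, ⟨hk, h⟩, rfl⟩
        rwa [Nat.sub_add_cancel (not_lt.1 h)] at this
  rw [hpre, Measure.prod_prod, Measure.infinitePi_pi _ (fun i _ => ht i),
    Measure.infinitePi_pi _ (fun i _ => ht (i + l)), Finset.prod_image,
    ← Finset.prod_filter_mul_prod_filter_not s (fun k => k < l)]
  · congr 1
    refine Finset.prod_congr rfl fun k hk => ?_
    rw [Nat.sub_add_cancel (not_lt.1 (Finset.mem_filter.1 hk).2)]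
  · intro a ha b hb hab
    have ha' := not_lt.1 (Finset.mem_filter.1 (Finset.mem_coe.1 ha)).2
    have hb' := not_lt.1 (Finset.mem_filter.1 (Finset.mem_coe.1 hb)).2
    simp only at hab
    omega

theorem shift_glue (l : ℕ) (p : (ℕ → S) × (ℕ → S)) : (fun k => glue l p (k + l)) = p.2 := by
  funext k
  unfold glue
  rw [if_neg (by omega), Nat.add_sub_cancel]

/-- independence of the first `l` slices and the rest -/
theorem indep (μ : Measure S) [IsProbabilityMeasure μ] (l : ℕ) (H1 H2 : (ℕ → S) → ℝ≥0∞)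
    (hm1 : Measurable H1) (hm2 : Measurable H2)
    (hdep : ∀ w w' : ℕ → S, (∀ k < l, w k = w' k) → H1 w = H1 w') :
    ∫⁻ w, H1 w * H2 (fun k => w (k + l)) ∂(Measure.infinitePi (fun _ : ℕ => μ)) =
      (∫⁻ w, H1 w ∂(Measure.infinitePi (fun _ : ℕ => μ))) *
        ∫⁻ w, H2 w ∂(Measure.infinitePi (fun _ : ℕ => μ)) := by
  have hsh : Measurable (fun w : ℕ → S => fun k => w (k + l)) :=
    measurable_pi_lambda _ fun k => measurable_pi_apply (k + l)
  have hm : Measurable (fun w : ℕ → S => H1 w * H2 (fun k => w (k + l))) :=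
    hm1.mul (hm2.comp hsh)
  conv_lhs => rw [← glue_map μ l]
  rw [lintegral_map hm (glue_meas l)]
  have h : ∀ p : (ℕ → S) × (ℕ → S), H1 (glue l p) * H2 (fun k => glue l p (k + l)) =
      H1 p.1 * H2 p.2 := by
    intro p
    rw [shift_glue, hdep (glue l p) p.1]
    intro k hk
    unfold glue
    rw [if_pos hk]
  simp only [h]
  rw [lintegral_prod (fun p : (ℕ → S) × (ℕ → S) => H1 p.1 * H2 p.2)
    ((hm1.comp measurable_fst).mul (hm2.comp measurable_snd)).aemeasurable]
  simp only
  have h2 : ∀ x : ℕ → S, ∫⁻ y, H1 x * H2 y ∂(Measure.infinitePi (fun _ : ℕ => μ)) =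
      H1 x * ∫⁻ y, H2 y ∂(Measure.infinitePi (fun _ : ℕ => μ)) := fun x =>
    lintegral_const_mul _ hm2
  simp only [h2]
  rw [lintegral_mul_const _ hm1]

end glue

/-! ### sums over lists -/

/-- sum over the lists of length `k` with entries in `F` -/
noncomputable def SL (F : Finset V) : ℕ → (List V → ℝ) → ℝ
  | 0, f => f []
  | k + 1, f => ∑ c ∈ F, SL F k (fun cs => f (c :: cs))

theorem SL_mul (F : Finset V) (a : ℝ) (k : ℕ) : ∀ f : List V → ℝ,
    SL F k (fun cs => a * f cs) = a * SL F k f := by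
  induction k with
  | zero => exact fun f => rfl
  | succ k ih =>
    intro f
    simp only [SL]
    rw [Finset.mul_sum]
    exact Finset.sum_congr rfl fun c _ => ih _

theorem K_SL (F : Finset V) (n : ℕ) (v : ℕ → V → ℝ) (x : V) (k : ℕ) : ∀ f : List V → V → ℝ,
    K n v (fun y => SL F k (fun cs => f cs y)) x = SL F k (fun cs => K n v (f cs) x) := by
  induction k with
  | zero => exact fun f => rfl
  | succ k ih =>
    intro f
    simp only [SL]
    rw [K_sum]
    exact Finset.sum_congr rfl fun c _ => ih _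

theorem SL_nonneg (F : Finset V) (k : ℕ) : ∀ f : List V → ℝ, (∀ cs, 0 ≤ f cs) →
    0 ≤ SL F k f := by
  induction k with
  | zero => exact fun f h => h []
  | succ k ih => exact fun f h => Finset.sum_nonneg fun c _ => ih _ fun cs => h _

theorem sqrt_sum_le {ι : Type} (F : Finset ι) (f : ι → ℝ) (hf : ∀ i, 0 ≤ f i) :
    √(∑ i ∈ F, f i) ≤ ∑ i ∈ F, √(f i) := by
  classical
  induction F using Finset.induction_on with
  | empty => simp
  | insert a F ha ih =>
    rw [Finset.sum_insert ha, Finset.sum_insert ha]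
    refine le_trans ?_ (add_le_add le_rfl ih)
    have h1 := hf a
    have h2 : 0 ≤ ∑ i ∈ F, f i := Finset.sum_nonneg fun i _ => hf i
    rw [Real.sqrt_le_left (by positivity)]
    nlinarith [Real.sq_sqrt h1, Real.sq_sqrt h2, Real.sqrt_nonneg (f a),
      Real.sqrt_nonneg (∑ i ∈ F, f i),
      mul_nonneg (Real.sqrt_nonneg (f a)) (Real.sqrt_nonneg (∑ i ∈ F, f i))]

theorem SL_sqrt (F : Finset V) (k : ℕ) : ∀ f : List V → ℝ, (∀ cs, 0 ≤ f cs) →
    √(SL F k f) ≤ SL F k (fun cs => √(f cs)) := by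
  induction k with
  | zero => exact fun f h => le_rfl
  | succ k ih =>
    intro f h
    simp only [SL]
    refine (sqrt_sum_le F _ fun c => SL_nonneg F k _ fun cs => h _).trans ?_
    exact Finset.sum_le_sum fun c _ => ih _ fun cs => h _

theorem SL_lintegral {Ω : Type} [MeasurableSpace Ω] (μ : Measure Ω) (F : Finset V) (k : ℕ) :
    ∀ (f : List V → Ω → ℝ) (B : List V → ℝ), (∀ cs, Measurable (f cs)) → (∀ cs ω, 0 ≤ f cs ω) →
      (∀ cs, 0 ≤ B cs) → (∀ cs, ∫⁻ ω, ENNReal.ofReal (f cs ω) ∂μ ≤ ENNReal.ofReal (B cs)) →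
      Measurable (fun ω => SL F k (fun cs => f cs ω)) ∧
      ∫⁻ ω, ENNReal.ofReal (SL F k (fun cs => f cs ω)) ∂μ ≤ ENNReal.ofReal (SL F k B) := by
  induction k with
  | zero => exact fun f B h1 h2 h3 h4 => ⟨h1 [], h4 []⟩
  | succ k ih =>
    intro f B h1 h2 h3 h4
    have h5 := fun c => ih (fun cs => f (c :: cs)) (fun cs => B (c :: cs)) (fun cs => h1 _)
      (fun cs => h2 _) (fun cs => h3 _) (fun cs => h4 _)
    refine ⟨Finset.measurable_fun_sum F fun c _ => (h5 c).1, ?_⟩
    simp only [SL]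
    have h6 : ∀ ω, ENNReal.ofReal (∑ c ∈ F, SL F k (fun cs => f (c :: cs) ω)) =
        ∑ c ∈ F, ENNReal.ofReal (SL F k (fun cs => f (c :: cs) ω)) := fun ω =>
      ENNReal.ofReal_sum_of_nonneg fun c _ => SL_nonneg F k _ fun cs => h2 _ _
    simp only [h6]
    rw [lintegral_finsetSum _ fun c _ => (h5 c).1.ennreal_ofReal,
      ENNReal.ofReal_sum_of_nonneg fun c _ => SL_nonneg F k _ fun cs => h3 _]
    exact Finset.sum_le_sum fun c _ => (h5 c).2

/-! ### the coarse grained quantities -/

/-- multiples of a cell index -/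
def sc (m : ℕ) (c : V) : V := ((m : ℤ) * c.1, (m : ℤ) * c.2)

/-- translation of the environment -/
def th (a : V) (w : ℕ → V → ℝ) : ℕ → V → ℝ := fun k y => w k (y + a)

/-- time shift of the environment -/
def sg (l : ℕ) (w : ℕ → V → ℝ) : ℕ → V → ℝ := fun k => w (k + l)

/-- the partition function with prescribed cells -/
noncomputable def YY (β : ℝ) (l m : ℕ) : List V → (ℕ → V → ℝ) → V → ℝ
  | [], _, _ => 1
  | c :: cs, w, z => K l (wt β w) (fun y => (if cel m y = c then 1 else 0) *
      YY β l m cs (sg l w) y) z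

/-- the change of measure along a list of cells -/
noncomputable def GG (l m : ℕ) (g : (ℕ → V → ℝ) → ℝ) : V → List V → (ℕ → V → ℝ) → ℝ
  | _, [], _ => 1
  | c0, c :: cs, w => g (th (sc m c0) w) * GG l m g c cs (sg l w)

/-- the product of the weights of the increments -/
noncomputable def PA (α : V → ℝ) : V → List V → ℝ
  | _, [] => 1
  | c0, c :: cs => α (c - c0) * PA α c cs

theorem PA_nonneg (α : V → ℝ) (hα : ∀ c, 0 ≤ α c) (cs : List V) : ∀ c0, 0 ≤ PA α c0 cs := by
  induction cs with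
  | nil => exact fun c0 => zero_le_one
  | cons c cs ih => exact fun c0 => mul_nonneg (hα _) (ih c)

theorem cel_add (m : ℕ) (hm : 1 ≤ m) (y c : V) : cel m (y + sc m c) = cel m y + c := by
  have hm0 : (m : ℤ) ≠ 0 := by omega
  unfold cel sc
  ext
  · simp only [Prod.fst_add]
    rw [Int.add_mul_ediv_left _ _ hm0]
  · simp only [Prod.snd_add]
    rw [Int.add_mul_ediv_left _ _ hm0]

theorem th_meas (a : V) : Measurable (th a) := by
  unfold th
  exact measurable_pi_lambda _ fun k => measurable_pi_lambda _ fun y =>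
    (measurable_pi_apply (y + a)).comp (measurable_pi_apply k)

theorem sg_meas (l : ℕ) : Measurable (sg l) := by
  unfold sg
  exact measurable_pi_lambda _ fun k => measurable_pi_apply (k + l)

theorem wt_meas (β : ℝ) (k : ℕ) (y : V) : Measurable (fun w : ℕ → V → ℝ => wt β w k y) := by
  unfold wt
  have h : Measurable (fun w : ℕ → V → ℝ => w k y) :=
    (measurable_pi_apply y).comp (measurable_pi_apply k)
  fun_prop

theorem wt_pos (β : ℝ) (w : ℕ → V → ℝ) (k : ℕ) (y : V) : 0 < wt β w k y := Real.exp_pos _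

theorem wt_sg (β : ℝ) (l : ℕ) (w : ℕ → V → ℝ) : wt β (sg l w) = fun k => wt β w (k + l) := rfl

theorem wt_th (β : ℝ) (a : V) (w : ℕ → V → ℝ) : wt β (th a w) = fun k y => wt β w k (y + a) := rfl

theorem K_meas (β : ℝ) (n : ℕ) (F : (ℕ → V → ℝ) → V → ℝ) (hF : ∀ y, Measurable fun w => F w y)
    (z : V) : Measurable (fun w => K n (wt β w) (F w) z) := by
  simp_rw [K_path]
  refine Finset.measurable_fun_sum _ fun τ _ => ?_
  exact ((Finset.measurable_fun_prod _ fun i _ => wt_meas β _ _).div_const _).mul (hF _)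

theorem YY_meas (β : ℝ) (l m : ℕ) (cs : List V) : ∀ z, Measurable fun w => YY β l m cs w z := by
  induction cs with
  | nil => exact fun z => measurable_const
  | cons c cs ih =>
    intro z
    exact K_meas β l (fun w y => (if cel m y = c then 1 else 0) * YY β l m cs (sg l w) y)
      (fun y => ((ih y).comp (sg_meas l)).const_mul _) z

theorem YY_nonneg (β : ℝ) (l m : ℕ) (cs : List V) : ∀ w z, 0 ≤ YY β l m cs w z := by
  induction cs with
  | nil => exact fun w z => zero_le_one
  | cons c cs ih =>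
    intro w z
    refine K_nonneg l _ _ _ (fun k y => (wt_pos β w k y).le) fun y => ?_
    exact mul_nonneg (by split_ifs <;> norm_num) (ih _ _)

theorem GG_meas (l m : ℕ) (g : (ℕ → V → ℝ) → ℝ) (hg : Measurable g) (cs : List V) :
    ∀ c0, Measurable (GG l m g c0 cs) := by
  induction cs with
  | nil => exact fun c0 => measurable_const
  | cons c cs ih =>
    intro c0
    exact (hg.comp (th_meas _)).mul ((ih c).comp (sg_meas l))

theorem GG_pos (l m : ℕ) (g : (ℕ → V → ℝ) → ℝ) (hg : ∀ w, 0 < g w) (cs : List V) :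
    ∀ c0 w, 0 < GG l m g c0 cs w := by
  induction cs with
  | nil => exact fun c0 w => one_pos
  | cons c cs ih =>
    intro c0 w
    exact mul_pos (hg _) (ih c _)

theorem W_add (β : ℝ) (l k : ℕ) (w : ℕ → V → ℝ) (z : V) :
    W β ((k + 1) * l) w z = K l (wt β w) (fun y => W β (k * l) (sg l w) y) z := by
  unfold W
  rw [show (k + 1) * l = l + k * l by ring, K_add]
  rfl

/-- (1) decomposition over the cells -/
theorem W_eq (β : ℝ) (l m : ℕ) (F : Finset V) (k : ℕ) : ∀ (w : ℕ → V → ℝ) (z : V),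
    (∀ y : V, |y.1 - z.1| ≤ ((k * l : ℕ) : ℤ) → |y.2 - z.2| ≤ ((k * l : ℕ) : ℤ) → cel m y ∈ F) →
    W β (k * l) w z = SL F k (fun cs => YY β l m cs w z) := by
  induction k with
  | zero =>
    intro w z _
    rw [Nat.zero_mul]
    rfl
  | succ k ih =>
    intro w z hz
    rw [W_add]
    have h1 : K l (wt β w) (fun y => W β (k * l) (sg l w) y) z =
        K l (wt β w) (fun y => ∑ c ∈ F, SL F k (fun cs => (if cel m y = c then 1 else 0) *
          YY β l m cs (sg l w) y)) z := by
      refine K_loc l _ _ _ z fun y h1 h2 => ?_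
      have h3 : ∀ y' : V, |y'.1 - y.1| ≤ ((k * l : ℕ) : ℤ) → |y'.2 - y.2| ≤ ((k * l : ℕ) : ℤ) →
          cel m y' ∈ F := by
        intro y' h4 h5
        refine hz y' ?_ ?_
        · have : y'.1 - z.1 = (y'.1 - y.1) + (y.1 - z.1) := by ring
          rw [this]
          refine (abs_add_le _ _).trans ?_
          push_cast at h4 h1 ⊢
          linarith
        · have : y'.2 - z.2 = (y'.2 - y.2) + (y.2 - z.2) := by ring
          rw [this]
          refine (abs_add_le _ _).trans ?_
          push_cast at h5 h2 ⊢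
          linarith
      rw [ih (sg l w) y h3]
      simp_rw [SL_mul]
      rw [← Finset.sum_mul, Finset.sum_ite_eq, if_pos (h3 y (by simp; positivity)
        (by simp; positivity)), one_mul]
    rw [h1, K_sum]
    simp only [SL]
    refine Finset.sum_congr rfl fun c _ => ?_
    rw [K_SL]
    rfl

section main

variable {γ : Measure (V → ℝ)} [IsProbabilityMeasure γ]

/-- (2) the mean with the change of measure -/
theorem GY_le (hst : ∀ a : V, (PP γ).map (th a) = PP γ) (β : ℝ) (l m : ℕ) (hm : 1 ≤ m)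
    (g : (ℕ → V → ℝ) → ℝ) (hg : Measurable g) (hg0 : ∀ w, 0 < g w)
    (hgl : ∀ w w' : ℕ → V → ℝ, (∀ k < l, w k = w' k) → g w = g w') (α : V → ℝ)
    (hα : ∀ c, 0 ≤ α c)
    (H : ∀ c z : V, cel m z = 0 → ∫⁻ w, ENNReal.ofReal (g w * K l (wt β w)
      (fun y => if cel m y = c then 1 else 0) z) ∂(PP γ) ≤ ENNReal.ofReal (α c ^ 2 / 2))
    (cs : List V) : ∀ c0 z : V, cel m z = c0 →
      ∫⁻ w, ENNReal.ofReal (GG l m g c0 cs w * YY β l m cs w z) ∂(PP γ) ≤
        ENNReal.ofReal (PA α c0 cs ^ 2 / 2 ^ cs.length) := by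
  have hP : IsProbabilityMeasure (PP γ) := by unfold PP; infer_instance
  induction cs with
  | nil =>
    intro c0 z hz
    simp [GG, YY, PA]
  | cons c cs ih =>
    intro c0 z hz
    obtain ⟨a, ha⟩ : ∃ a, a = sc m c0 := ⟨_, rfl⟩
    obtain ⟨q, hq⟩ : ∃ q : (Fin l → Fin 4) → (ℕ → V → ℝ) → ℝ, q = fun τ w =>
      g (th a w) * ((∏ i : Fin l, wt β w i (z + pos τ (i + 1))) / 4 ^ l *
        (if cel m (z + pos τ l) = c then 1 else 0)) := ⟨_, rfl⟩
    have hq0 : ∀ τ w, 0 ≤ q τ w := by
      intro τ w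
      rw [hq]
      refine mul_nonneg (hg0 _).le (mul_nonneg (div_nonneg (Finset.prod_nonneg fun i _ =>
        (wt_pos _ _ _ _).le) (by positivity)) (by split_ifs <;> norm_num))
    have hqm : ∀ τ, Measurable (q τ) := by
      intro τ
      rw [hq]
      exact (hg.comp (th_meas a)).mul (((Finset.measurable_fun_prod _ fun i _ =>
        wt_meas β _ _).div_const _).mul_const _)
    have hqd : ∀ τ, ∀ w w' : ℕ → V → ℝ, (∀ k < l, w k = w' k) →
        ENNReal.ofReal (q τ w) = ENNReal.ofReal (q τ w') := by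
      intro τ w w' h
      rw [hq]
      have h1 : g (th a w) = g (th a w') := hgl _ _ fun k hk => by
        unfold th
        rw [h k hk]
      have h2 : ∀ i : Fin l, wt β w i (z + pos τ (i + 1)) = wt β w' i (z + pos τ (i + 1)) := by
        intro i
        unfold wt
        rw [h i i.2]
      simp only [h1, h2]
    obtain ⟨r, hr⟩ : ∃ r : V → (ℕ → V → ℝ) → ℝ, r = fun y w => GG l m g c cs w *
      YY β l m cs w y := ⟨_, rfl⟩
    have hr0 : ∀ y w, 0 ≤ r y w := by
      intro y w
      rw [hr]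
      exact mul_nonneg (GG_pos l m g hg0 cs c w).le (YY_nonneg β l m cs w y)
    have hrm : ∀ y, Measurable (r y) := by
      intro y
      rw [hr]
      exact (GG_meas l m g hg cs c).mul (YY_meas β l m cs y)
    -- the expansion over paths
    have h1 : ∀ w, GG l m g c0 (c :: cs) w * YY β l m (c :: cs) w z =
        ∑ τ : Fin l → Fin 4, q τ w * r (z + pos τ l) (sg l w) := by
      intro w
      change g (th (sc m c0) w) * GG l m g c cs (sg l w) * K l (wt β w) (fun y =>
        (if cel m y = c then 1 else 0) * YY β l m cs (sg l w) y) z = _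
      rw [K_path, Finset.mul_sum, hq, hr, ha]
      refine Finset.sum_congr rfl fun τ _ => ?_
      ring
    have h2 : ∀ w, ENNReal.ofReal (GG l m g c0 (c :: cs) w * YY β l m (c :: cs) w z) =
        ∑ τ : Fin l → Fin 4, ENNReal.ofReal (q τ w) *
          ENNReal.ofReal (r (z + pos τ l) (fun k => w (k + l))) := by
      intro w
      rw [h1, ENNReal.ofReal_sum_of_nonneg fun τ _ => mul_nonneg (hq0 _ _) (hr0 _ _)]
      exact Finset.sum_congr rfl fun τ _ => ENNReal.ofReal_mul (hq0 _ _)
    simp only [h2]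
    have hmq : ∀ τ : Fin l → Fin 4, Measurable (fun w : ℕ → V → ℝ => ENNReal.ofReal (q τ w) *
        ENNReal.ofReal (r (z + pos τ l) (fun k => w (k + l)))) := fun τ =>
      ((hqm τ).ennreal_ofReal).mul (((hrm _).comp (sg_meas l)).ennreal_ofReal)
    rw [lintegral_finsetSum _ fun τ _ => hmq τ]
    -- independence
    obtain ⟨B, hB⟩ : ∃ B : ℝ, B = PA α c cs ^ 2 / 2 ^ cs.length := ⟨_, rfl⟩
    have hB0 : 0 ≤ B := by rw [hB]; positivity
    have h3 : ∀ τ : Fin l → Fin 4, ∫⁻ w, ENNReal.ofReal (q τ w) *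
        ENNReal.ofReal (r (z + pos τ l) (fun k => w (k + l))) ∂(PP γ) ≤
        (∫⁻ w, ENNReal.ofReal (q τ w) ∂(PP γ)) * ENNReal.ofReal B := by
      intro τ
      have e1 := indep γ l (fun w => ENNReal.ofReal (q τ w))
        (fun w => ENNReal.ofReal (r (z + pos τ l) w)) (hqm τ).ennreal_ofReal
        (hrm _).ennreal_ofReal (hqd τ)
      change ∫⁻ w, ENNReal.ofReal (q τ w) *
        ENNReal.ofReal (r (z + pos τ l) (fun k => w (k + l))) ∂(Measure.infinitePi fun _ => γ) ≤ _
      rw [e1]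
      by_cases h : cel m (z + pos τ l) = c
      · refine mul_le_mul' le_rfl ?_
        rw [hr, hB]
        exact ih c (z + pos τ l) h
      · have e2 : ∀ w, q τ w = 0 := by
          intro w
          rw [hq]
          simp [h]
        simp [e2]
    refine (Finset.sum_le_sum fun τ _ => h3 τ).trans ?_
    rw [← Finset.sum_mul, ← lintegral_finsetSum _ fun τ _ => (hqm τ).ennreal_ofReal]
    -- the first block
    have h4 : ∀ w, ∑ τ : Fin l → Fin 4, ENNReal.ofReal (q τ w) =
        ENNReal.ofReal (g (th a w) * K l (wt β (th a w))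
          (fun y => if cel m y = c - c0 then 1 else 0) (z - a)) := by
      intro w
      rw [← ENNReal.ofReal_sum_of_nonneg fun τ _ => hq0 _ _]
      congr 1
      have e1 := K_trans l a (wt β w) (fun y => if cel m y = c then (1 : ℝ) else 0) (z - a)
      rw [sub_add_cancel] at e1
      have e2 : (fun y : V => if cel m (y + a) = c then (1 : ℝ) else 0) =
          fun y => if cel m y = c - c0 then 1 else 0 := by
        funext y
        rw [ha, cel_add m hm]
        have : cel m y + c0 = c ↔ cel m y = c - c0 := eq_sub_iff_add_eq.symm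
        simp only [this]
      rw [e2] at e1
      rw [wt_th, ← e1, K_path, Finset.mul_sum, hq]
    simp only [h4]
    have h5 : Measurable (fun w => ENNReal.ofReal (g w * K l (wt β w)
        (fun y => if cel m y = c - c0 then 1 else 0) (z - a))) :=
      (hg.mul (K_meas β l (fun _ y => if cel m y = c - c0 then 1 else 0)
        (fun y => measurable_const) (z - a))).ennreal_ofReal
    have h6 : ∫⁻ w, ENNReal.ofReal (g (th a w) * K l (wt β (th a w))
          (fun y => if cel m y = c - c0 then 1 else 0) (z - a)) ∂(PP γ) =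
        ∫⁻ w, ENNReal.ofReal (g w * K l (wt β w)
          (fun y => if cel m y = c - c0 then 1 else 0) (z - a)) ∂(PP γ) := by
      conv_rhs => rw [← hst a]
      rw [lintegral_map h5 (th_meas a)]
    rw [h6]
    have h7 : cel m (z - a) = 0 := by
      have e1 := cel_add m hm (z - a) c0
      rw [← ha, sub_add_cancel, hz] at e1
      exact left_eq_add.1 (by rw [add_comm]; exact e1)
    refine (mul_le_mul' (H (c - c0) (z - a) h7) le_rfl).trans (le_of_eq ?_)
    rw [← ENNReal.ofReal_mul (by positivity), hB]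
    congr 1
    change α (c - c0) ^ 2 / 2 * (PA α c cs ^ 2 / 2 ^ cs.length) =
      (α (c - c0) * PA α c cs) ^ 2 / 2 ^ (cs.length + 1)
    field_simp
    ring

/-- (3) the mean of the inverse -/
theorem Ginv_le (hst : ∀ a : V, (PP γ).map (th a) = PP γ) (l m : ℕ)
    (g : (ℕ → V → ℝ) → ℝ) (hg : Measurable g) (hg0 : ∀ w, 0 < g w)
    (hgl : ∀ w w' : ℕ → V → ℝ, (∀ k < l, w k = w' k) → g w = g w')
    (H : ∫⁻ w, ENNReal.ofReal (g w)⁻¹ ∂(PP γ) ≤ ENNReal.ofReal 2)
    (cs : List V) : ∀ c0 : V, ∫⁻ w, ENNReal.ofReal (GG l m g c0 cs w)⁻¹ ∂(PP γ) ≤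
        ENNReal.ofReal (2 ^ cs.length) := by
  have hP : IsProbabilityMeasure (PP γ) := by unfold PP; infer_instance
  induction cs with
  | nil =>
    intro c0
    simp [GG]
  | cons c cs ih =>
    intro c0
    have h1 : ∀ w, ENNReal.ofReal (GG l m g c0 (c :: cs) w)⁻¹ =
        ENNReal.ofReal (g (th (sc m c0) w))⁻¹ *
          ENNReal.ofReal (GG l m g c cs (fun k => w (k + l)))⁻¹ := by
      intro w
      change ENNReal.ofReal (g (th (sc m c0) w) * GG l m g c cs (sg l w))⁻¹ = _
      rw [mul_inv, ENNReal.ofReal_mul (inv_nonneg.2 (hg0 _).le)]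
      rfl
    simp only [h1]
    have e1 := indep γ l (fun w => ENNReal.ofReal (g (th (sc m c0) w))⁻¹)
        (fun w => ENNReal.ofReal (GG l m g c cs w)⁻¹)
        ((hg.comp (th_meas _)).inv.ennreal_ofReal)
        ((GG_meas l m g hg cs c).inv.ennreal_ofReal) (fun w w' h => by
          have : g (th (sc m c0) w) = g (th (sc m c0) w') := hgl _ _ fun k hk => by
            unfold th
            rw [h k hk]
          simp only [this])
    change ∫⁻ w, ENNReal.ofReal (g (th (sc m c0) w))⁻¹ *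
      ENNReal.ofReal (GG l m g c cs (fun k => w (k + l)))⁻¹ ∂(Measure.infinitePi fun _ => γ) ≤ _
    rw [e1]
    have h6 : ∫⁻ w, ENNReal.ofReal (g (th (sc m c0) w))⁻¹ ∂(PP γ) =
        ∫⁻ w, ENNReal.ofReal (g w)⁻¹ ∂(PP γ) := by
      have hm' : Measurable (fun w => ENNReal.ofReal (g w)⁻¹) := hg.inv.ennreal_ofReal
      conv_rhs => rw [← hst (sc m c0)]
      rw [lintegral_map hm' (th_meas _)]
    change (∫⁻ w, ENNReal.ofReal (g (th (sc m c0) w))⁻¹ ∂(PP γ)) *
      (∫⁻ w, ENNReal.ofReal (GG l m g c cs w)⁻¹ ∂(PP γ)) ≤ _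
    rw [h6]
    refine (mul_le_mul' H (ih c)).trans (le_of_eq ?_)
    rw [← ENNReal.ofReal_mul (by norm_num), List.length_cons, pow_succ, mul_comm]

/-- Cauchy-Schwarz -/
theorem cs_le {Ω : Type} [MeasurableSpace Ω] (μ : Measure Ω) (f g : Ω → ℝ) (hf : Measurable f)
    (hg : Measurable g) (hf0 : ∀ ω, 0 ≤ f ω) (hg0 : ∀ ω, 0 ≤ g ω) (a b c : ℝ) (hc : 0 ≤ c)
    (hab : a * b ≤ c ^ 2) (ha0 : 0 ≤ a) (hb0 : 0 ≤ b)
    (ha : ∫⁻ ω, ENNReal.ofReal (f ω) ∂μ ≤ ENNReal.ofReal a)
    (hb : ∫⁻ ω, ENNReal.ofReal (g ω) ∂μ ≤ ENNReal.ofReal b) :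
    ∫⁻ ω, ENNReal.ofReal (√(f ω * g ω)) ∂μ ≤ ENNReal.ofReal c := by
  have h1 := ENNReal.lintegral_mul_le_Lp_mul_Lq μ Real.HolderConjugate.two_two
    (f := fun ω => ENNReal.ofReal (√(f ω))) (g := fun ω => ENNReal.ofReal (√(g ω)))
    (hf.sqrt.ennreal_ofReal.aemeasurable) (hg.sqrt.ennreal_ofReal.aemeasurable)
  have h2 : ∀ ω, ((fun ω => ENNReal.ofReal (√(f ω))) * (fun ω => ENNReal.ofReal (√(g ω)))) ω =
      ENNReal.ofReal (√(f ω * g ω)) := by
    intro ω
    rw [Pi.mul_apply, ← ENNReal.ofReal_mul (Real.sqrt_nonneg _), Real.sqrt_mul (hf0 ω)]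
  simp only [h2] at h1
  have h3 : ∀ (f : Ω → ℝ), (∀ ω, 0 ≤ f ω) → ∀ ω, ENNReal.ofReal (√(f ω)) ^ (2 : ℝ) =
      ENNReal.ofReal (f ω) := by
    intro f hf ω
    rw [ENNReal.ofReal_rpow_of_nonneg (Real.sqrt_nonneg _) (by norm_num)]
    congr 1
    rw [Real.rpow_two, Real.sq_sqrt (hf ω)]
  simp only [h3 f hf0, h3 g hg0] at h1
  refine h1.trans ?_
  refine (mul_le_mul' (ENNReal.rpow_le_rpow ha (by norm_num))
    (ENNReal.rpow_le_rpow hb (by norm_num))).trans ?_
  rw [ENNReal.ofReal_rpow_of_nonneg ha0 (by norm_num),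
    ENNReal.ofReal_rpow_of_nonneg hb0 (by norm_num), ← ENNReal.ofReal_mul (by positivity)]
  refine ENNReal.ofReal_le_ofReal ?_
  rw [← Real.mul_rpow ha0 hb0, ← Real.sqrt_eq_rpow]
  exact Real.sqrt_le_iff.2 ⟨hc, hab⟩

/-- (4) the fractional moment for a list of cells -/
theorem sqrt_le (hst : ∀ a : V, (PP γ).map (th a) = PP γ) (β : ℝ) (l m : ℕ) (hm : 1 ≤ m)
    (g : (ℕ → V → ℝ) → ℝ) (hg : Measurable g) (hg0 : ∀ w, 0 < g w)
    (hgl : ∀ w w' : ℕ → V → ℝ, (∀ k < l, w k = w' k) → g w = g w') (α : V → ℝ)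
    (hα : ∀ c, 0 ≤ α c)
    (H : ∀ c z : V, cel m z = 0 → ∫⁻ w, ENNReal.ofReal (g w * K l (wt β w)
      (fun y => if cel m y = c then 1 else 0) z) ∂(PP γ) ≤ ENNReal.ofReal (α c ^ 2 / 2))
    (H2 : ∫⁻ w, ENNReal.ofReal (g w)⁻¹ ∂(PP γ) ≤ ENNReal.ofReal 2)
    (cs : List V) (c0 z : V) (hz : cel m z = c0) :
    ∫⁻ w, ENNReal.ofReal (√(YY β l m cs w z)) ∂(PP γ) ≤ ENNReal.ofReal (PA α c0 cs) := by
  have h1 := cs_le (PP γ) (fun w => GG l m g c0 cs w * YY β l m cs w z)
    (fun w => (GG l m g c0 cs w)⁻¹) ((GG_meas l m g hg cs c0).mul (YY_meas β l m cs z))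
    (GG_meas l m g hg cs c0).inv
    (fun w => mul_nonneg (GG_pos l m g hg0 cs c0 w).le (YY_nonneg β l m cs w z))
    (fun w => inv_nonneg.2 (GG_pos l m g hg0 cs c0 w).le)
    (PA α c0 cs ^ 2 / 2 ^ cs.length) (2 ^ cs.length) (PA α c0 cs) (PA_nonneg α hα cs c0)
    (le_of_eq (by field_simp)) (by positivity) (by positivity)
    (GY_le hst β l m hm g hg hg0 hgl α hα H cs c0 z hz)
    (Ginv_le hst l m g hg hg0 hgl H2 cs c0)
  have h2 : ∀ w, GG l m g c0 cs w * YY β l m cs w z * (GG l m g c0 cs w)⁻¹ = YY β l m cs w z := by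
    intro w
    have := (GG_pos l m g hg0 cs c0 w).ne'
    field_simp
  simp only [h2] at h1
  exact h1

/-- (5) the sum over the lists -/
theorem SL_PA (F : Finset V) (α : V → ℝ) (hα : ∀ c, 0 ≤ α c) (ρ : ℝ)
    (hρ : ∀ F : Finset V, ∑ c ∈ F, α c ≤ ρ) (k : ℕ) : ∀ c0 : V, SL F k (PA α c0) ≤ ρ ^ k := by
  have hρ0 : 0 ≤ ρ := by simpa using hρ ∅
  induction k with
  | zero => exact fun c0 => le_of_eq rfl
  | succ k ih =>
    intro c0
    simp only [SL]
    have h1 : ∀ c ∈ F, SL F k (fun cs => PA α c0 (c :: cs)) ≤ α (c - c0) * ρ ^ k := by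
      intro c _
      change SL F k (fun cs => α (c - c0) * PA α c cs) ≤ _
      rw [SL_mul]
      exact mul_le_mul_of_nonneg_left (ih c) (hα _)
    refine (Finset.sum_le_sum h1).trans ?_
    rw [← Finset.sum_mul, pow_succ, mul_comm (ρ ^ k)]
    refine mul_le_mul_of_nonneg_right ?_ (by positivity)
    have h2 := hρ (F.image fun c => c - c0)
    rw [Finset.sum_image (fun a _ b _ hab => sub_left_injective hab)] at h2
    exact h2

end main

/-! ### Gaussian facts -/

theorem wt_int {γ : Measure (V → ℝ)} {h : V → ℝ} (hγ : GS γ h) (β : ℝ) (y : V) :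
    ∫⁻ w, ENNReal.ofReal (wt β w 0 y) ∂(PP γ) ≤ 1 := by
  have hP := hγ.prob
  have h1 := (measurePreserving_eval_infinitePi (fun _ : ℕ => γ) 0)
  have h2 : Measurable (fun s : V → ℝ => ENNReal.ofReal (Real.exp (β * s y - β ^ 2 / 2))) := by
    have : Measurable (fun s : V → ℝ => s y) := measurable_pi_apply y
    fun_prop
  have h3 : ∫⁻ w, ENNReal.ofReal (wt β w 0 y) ∂(PP γ) =
      ∫⁻ s, ENNReal.ofReal (Real.exp (β * s y - β ^ 2 / 2)) ∂γ := by
    rw [← h1.lintegral_comp h2]
    rfl
  rw [h3]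
  have h4 : γ.map (fun s : V → ℝ => s y) = gaussianReal 0 1 := by
    have := hγ.lin {y} (fun _ => 1)
    simp only [Finset.sum_singleton, one_mul, sub_self, hγ.zero, Real.toNNReal_one] at this
    exact this
  have h5 : ∫⁻ s, ENNReal.ofReal (Real.exp (β * s y - β ^ 2 / 2)) ∂γ =
      ∫⁻ t, ENNReal.ofReal (Real.exp (β * t - β ^ 2 / 2)) ∂(gaussianReal 0 1) := by
    rw [← h4, lintegral_map (by fun_prop) (measurable_pi_apply y)]
  rw [h5]
  have h6 : Integrable (fun t : ℝ => Real.exp (β * t - β ^ 2 / 2)) (gaussianReal 0 1) := by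
    have h7 := (integrable_exp_mul_gaussianReal (μ := 0) (v := 1) β).mul_const
      (Real.exp (- (β ^ 2 / 2)))
    refine h7.congr (Eventually.of_forall fun t => ?_)
    simp only
    rw [← Real.exp_add]
    congr 1
  rw [← ofReal_integral_eq_lintegral_ofReal h6 (Eventually.of_forall fun t => (Real.exp_pos _).le)]
  have h8 : ∫ t : ℝ, Real.exp (β * t - β ^ 2 / 2) ∂(gaussianReal 0 1) = 1 := by
    have h9 : ∀ t : ℝ, Real.exp (β * t - β ^ 2 / 2) =
        Real.exp (- (β ^ 2 / 2)) * Real.exp (β * t) := by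
      intro t
      rw [← Real.exp_add]
      congr 1
      ring
    simp_rw [h9]
    rw [integral_const_mul]
    have h10 := congrFun (mgf_id_gaussianReal (μ := 0) (v := 1)) β
    unfold mgf at h10
    simp only [id] at h10
    rw [h10, ← Real.exp_add]
    have : -(β ^ 2 / 2) + ((0 : ℝ) * β + ((1 : NNReal) : ℝ) * β ^ 2 / 2) = 0 := by
      push_cast
      ring
    rw [this, Real.exp_zero]
  rw [h8, ENNReal.ofReal_one]

theorem W_int {γ : Measure (V → ℝ)} {h : V → ℝ} (hγ : GS γ h) (β : ℝ) (n : ℕ) : ∀ z : V,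
    ∫⁻ w, ENNReal.ofReal (W β n w z) ∂(PP γ) ≤ 1 := by
  have hP := hγ.prob
  have hPP : IsProbabilityMeasure (PP γ) := by unfold PP; infer_instance
  induction n with
  | zero =>
    intro z
    simp [W, K_zero]
  | succ n ih =>
    intro z
    have hWm : ∀ y, Measurable fun w => W β n w y := fun y =>
      K_meas β n (fun _ _ => 1) (fun _ => measurable_const) y
    have hW0 : ∀ w y, 0 ≤ W β n w y := fun w y =>
      K_nonneg n _ _ _ (fun k y => (wt_pos β w k y).le) fun _ => zero_le_one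
    have h1 : ∀ w, ENNReal.ofReal (W β (n + 1) w z) = ∑ e : Fin 4, (ENNReal.ofReal (1 / 4)) *
        (ENNReal.ofReal (wt β w 0 (z + stp e)) *
          ENNReal.ofReal (W β n (fun k => w (k + 1)) (z + stp e))) := by
      intro w
      have e1 : W β (n + 1) w z = ∑ e : Fin 4, 1 / 4 * (wt β w 0 (z + stp e) *
          W β n (fun k => w (k + 1)) (z + stp e)) := by
        unfold W
        rw [K_succ, Finset.sum_div]
        refine Finset.sum_congr rfl fun e _ => ?_
        rw [div_eq_inv_mul, ← one_div]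
        rfl
      rw [e1, ENNReal.ofReal_sum_of_nonneg fun e _ => mul_nonneg (by norm_num)
        (mul_nonneg (wt_pos _ _ _ _).le (hW0 _ _))]
      refine Finset.sum_congr rfl fun e _ => ?_
      rw [ENNReal.ofReal_mul (by norm_num), ENNReal.ofReal_mul (wt_pos _ _ _ _).le]
    simp only [h1]
    have hm1 : ∀ e : Fin 4, Measurable (fun w : ℕ → V → ℝ => ENNReal.ofReal (wt β w 0 (z + stp e)) *
          ENNReal.ofReal (W β n (fun k => w (k + 1)) (z + stp e))) := fun e =>
      (wt_meas β 0 _).ennreal_ofReal.mul (((hWm _).comp (sg_meas 1)).ennreal_ofReal)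
    rw [lintegral_finsetSum _ fun e _ => (hm1 e).const_mul _]
    have h2 : ∀ e ∈ (univ : Finset (Fin 4)), ∫⁻ w, (ENNReal.ofReal (1 / 4)) *
        (ENNReal.ofReal (wt β w 0 (z + stp e)) *
          ENNReal.ofReal (W β n (fun k => w (k + 1)) (z + stp e))) ∂(PP γ) ≤
          ENNReal.ofReal (1 / 4) := by
      intro e _
      rw [lintegral_const_mul _ (hm1 e)]
      have e1 := indep γ 1 (fun w => ENNReal.ofReal (wt β w 0 (z + stp e)))
        (fun w => ENNReal.ofReal (W β n w (z + stp e))) (wt_meas β 0 _).ennreal_ofReal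
        (hWm _).ennreal_ofReal (fun w w' h => by
          unfold wt
          rw [h 0 (by norm_num)])
      have e2 : ∫⁻ w, ENNReal.ofReal (wt β w 0 (z + stp e)) *
          ENNReal.ofReal (W β n (fun k => w (k + 1)) (z + stp e)) ∂(PP γ) ≤ 1 := by
        change ∫⁻ w, ENNReal.ofReal (wt β w 0 (z + stp e)) *
          ENNReal.ofReal (W β n (fun k => w (k + 1)) (z + stp e))
            ∂(Measure.infinitePi fun _ => γ) ≤ 1
        rw [e1]
        exact mul_le_one' (wt_int hγ β _) (ih _)
      calc ENNReal.ofReal (1 / 4) * _ ≤ ENNReal.ofReal (1 / 4) * 1 := mul_le_mul' le_rfl e2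
        _ = _ := mul_one _
    refine (Finset.sum_le_sum h2).trans (le_of_eq ?_)
    rw [← ENNReal.ofReal_sum_of_nonneg fun _ _ => by norm_num]
    norm_num

/-- **COARSE.** -/
theorem t_COARSE : S_TRANS → S_COARSE := by
  intro hT γ h hγ β l m hl hm A hA hAl κ hκ hκ1 hAκ α hα H ρ hρ k
  classical
  have hP := hγ.prob
  have hPP : IsProbabilityMeasure (PP γ) := by unfold PP; infer_instance
  have hst : ∀ a : V, (PP γ).map (th a) = PP γ := fun a => (hT.2 γ h hγ a).2
  obtain ⟨g, hg⟩ : ∃ g : (ℕ → V → ℝ) → ℝ, g = fun w => if w ∈ A then κ else 1 := ⟨_, rfl⟩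
  have hgm : Measurable g := by
    rw [hg]
    exact Measurable.ite hA measurable_const measurable_const
  have hg0 : ∀ w, 0 < g w := by
    intro w
    rw [hg]
    change 0 < (if w ∈ A then κ else 1)
    split_ifs
    · exact hκ
    · exact one_pos
  have hg1 : ∀ w, g w ≤ 1 := by
    intro w
    rw [hg]
    change (if w ∈ A then κ else 1) ≤ 1
    split_ifs
    · exact hκ1
    · exact le_rfl
  have hgl : ∀ w w' : ℕ → V → ℝ, (∀ k < l, w k = w' k) → g w = g w' := by
    intro w w' hw
    rw [hg]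
    change (if w ∈ A then κ else 1) = (if w' ∈ A then κ else 1)
    simp only [hAl w w' hw]
  -- the hypothesis with lower integrals
  have H1 : ∀ c z : V, cel m z = 0 → ∫⁻ w, ENNReal.ofReal (g w * K l (wt β w)
      (fun y => if cel m y = c then 1 else 0) z) ∂(PP γ) ≤ ENNReal.ofReal (α c ^ 2 / 2) := by
    intro c z hz
    have hK0 : ∀ w, 0 ≤ K l (wt β w) (fun y => if cel m y = c then (1 : ℝ) else 0) z := fun w =>
      K_nonneg l _ _ _ (fun k y => (wt_pos β w k y).le) fun y => by split_ifs <;> norm_num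
    have hKm : Measurable fun w => K l (wt β w) (fun y => if cel m y = c then (1 : ℝ) else 0) z :=
      K_meas β l (fun _ y => if cel m y = c then 1 else 0) (fun y => measurable_const) z
    have hKW : ∀ w, K l (wt β w) (fun y => if cel m y = c then (1 : ℝ) else 0) z ≤ W β l w z := by
      intro w
      unfold W
      rw [K_path, K_path]
      refine Finset.sum_le_sum fun τ _ => ?_
      refine mul_le_mul_of_nonneg_left ?_ (div_nonneg (Finset.prod_nonneg fun i _ =>
        (wt_pos _ _ _ _).le) (by positivity))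
      split_ifs <;> norm_num
    have hint : Integrable (fun w => g w * K l (wt β w)
        (fun y => if cel m y = c then (1 : ℝ) else 0) z) (PP γ) := by
      refine ⟨(hgm.mul hKm).aestronglyMeasurable, ?_⟩
      rw [hasFiniteIntegral_iff_enorm]
      refine lt_of_le_of_lt ?_ ENNReal.one_lt_top
      refine le_trans (lintegral_mono fun w => ?_) (W_int hγ β l z)
      rw [Real.enorm_of_nonneg (mul_nonneg (hg0 w).le (hK0 w))]
      refine ENNReal.ofReal_le_ofReal ?_
      calc g w * _ ≤ 1 * _ := mul_le_mul_of_nonneg_right (hg1 w) (hK0 w)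
        _ = _ := one_mul _
        _ ≤ _ := hKW w
    rw [← ofReal_integral_eq_lintegral_ofReal hint
      (Eventually.of_forall fun w => mul_nonneg (hg0 w).le (hK0 w))]
    refine ENNReal.ofReal_le_ofReal ?_
    have h1 := H c z hz
    have h2 : ∀ w, A.indicator (fun _ => κ) w * K l (wt β w)
        (fun y => if cel m y = c then 1 else 0) z + Aᶜ.indicator (fun _ => (1 : ℝ)) w *
        K l (wt β w) (fun y => if cel m y = c then 1 else 0) z =
        g w * K l (wt β w) (fun y => if cel m y = c then 1 else 0) z := by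
      intro w
      rw [hg]
      by_cases hw : w ∈ A
      · simp [hw]
      · simp [hw]
    simp only [h2] at h1
    linarith
  have H2 : ∫⁻ w, ENNReal.ofReal (g w)⁻¹ ∂(PP γ) ≤ ENNReal.ofReal 2 := by
    have h1 : ∀ w, ENNReal.ofReal (g w)⁻¹ ≤ A.indicator (fun _ => ENNReal.ofReal κ⁻¹) w + 1 := by
      intro w
      rw [hg]
      by_cases hw : w ∈ A
      · simp [hw]
      · simp [hw]
    refine (lintegral_mono h1).trans ?_
    rw [lintegral_add_right _ measurable_const, lintegral_indicator_const hA, lintegral_const,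
      measure_univ, mul_one]
    have h2 : (PP γ) A ≤ ENNReal.ofReal κ := by
      rw [← ENNReal.ofReal_toReal (measure_ne_top (PP γ) A)]
      exact ENNReal.ofReal_le_ofReal hAκ
    calc ENNReal.ofReal κ⁻¹ * (PP γ) A + 1 ≤ ENNReal.ofReal κ⁻¹ * ENNReal.ofReal κ + 1 := by
          gcongr
      _ = ENNReal.ofReal 2 := by
          rw [← ENNReal.ofReal_mul (by positivity), inv_mul_cancel₀ hκ.ne', ← ENNReal.ofReal_one,
            ← ENNReal.ofReal_add (by norm_num) (by norm_num)]
          norm_num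
  -- the cells which can be reached
  obtain ⟨F, hF⟩ : ∃ F : Finset V, ∀ y : V, |y.1 - (0 : V).1| ≤ ((k * l : ℕ) : ℤ) →
      |y.2 - (0 : V).2| ≤ ((k * l : ℕ) : ℤ) → cel m y ∈ F := by
    refine ⟨((Finset.Icc (-((k * l : ℕ) : ℤ)) ((k * l : ℕ) : ℤ)) ×ˢ
      (Finset.Icc (-((k * l : ℕ) : ℤ)) ((k * l : ℕ) : ℤ))).image (cel m), fun y h1 h2 => ?_⟩
    refine Finset.mem_image_of_mem _ ?_
    rw [Finset.mem_product, Finset.mem_Icc, Finset.mem_Icc]
    simp only [Prod.fst_zero, Prod.snd_zero, sub_zero] at h1 h2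
    exact ⟨abs_le.1 h1, abs_le.1 h2⟩
  have h0 : cel m (0 : V) = 0 := by
    unfold cel
    simp
  have hW : ∀ w, √(W β (k * l) w 0) ≤ SL F k (fun cs => √(YY β l m cs w 0)) := by
    intro w
    rw [W_eq β l m F k w 0 hF]
    exact SL_sqrt F k _ fun cs => YY_nonneg β l m cs w 0
  have hρ0 : 0 ≤ ρ := by simpa using hρ ∅
  have h3 := (SL_lintegral (PP γ) F k (fun cs w => √(YY β l m cs w 0)) (PA α 0)
    (fun cs => (YY_meas β l m cs 0).sqrt) (fun cs w => Real.sqrt_nonneg _)
    (fun cs => PA_nonneg α hα cs 0)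
    (fun cs => sqrt_le hst β l m hm g hgm hg0 hgl α hα H1 H2 cs 0 0 h0)).2
  have hWm : Measurable fun w => √(W β (k * l) w 0) :=
    (K_meas β (k * l) (fun _ _ => 1) (fun _ => measurable_const) 0).sqrt
  rw [integral_eq_lintegral_of_nonneg_ae (Eventually.of_forall fun w => Real.sqrt_nonneg _)
    hWm.aestronglyMeasurable]
  refine ENNReal.toReal_le_of_le_ofReal (by positivity) ?_
  refine le_trans (lintegral_mono fun w => ENNReal.ofReal_le_ofReal (hW w)) (h3.trans ?_)
  exact ENNReal.ofReal_le_ofReal (SL_PA F α hα ρ hρ k 0)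

end Pool.Agent.H196.DP
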